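import Pool.Agent.Y525.QC.Pairs

/-!
# Quadratic residue covers for almost all pairs `(c, b)`

`Del c b n` is the number `Δ_n(c, b)` and `IsQRC c b ℓ C` says that `C` is an `ℓ`-QRC for the family
`Δ_n(c, b)`, see `Pool/Agent/Y525/QC/Defs.lean`.

If the odd prime `q` divides `(c - 1) / b` then `Δ_n(c, b) ≡ b^2 + 4 (mod q)` for every `n`, and if it
divides `b` then `Δ_n(c, b) ≡ ((c - 1) / b)^2 + 4`. So `{q}` is a `1`-QRC if this number is a square
modulo `q`. For given `b ≤ √x` the primes `c ≤ x`, `c ≡ 1 (mod b)`, for which no `q ≤ z` works are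
counted by the Brun-Titchmarsh inequality for the moduli `b ∏ q`, and on average over `b` (with
weights `1 / φ(b)`) half of the primes are available.
-/

set_option autoImplicit false

namespace Pool.Agent.Results.MP_74dd9d_nt.AlmostAllPairs

open Pool.Agent.Y525.QC

/-- For every `ε > 0` and all large `x` there are at most `ε x` pairs `(c, b)`, `c ≤ x` a prime and `b` a
divisor of `c - 1`, such that no prime `q` is by itself a `1`-QRC for the family `Δ_n(c, b)`. -/
theorem result (ε : ℝ) (hε : 0 < ε) : ∃ X : ℕ, ∀ x : ℕ, X ≤ x →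
    (Set.ncard {u : ℕ × ℕ | u.1 ≤ x ∧ u.1.Prime ∧ u.2 ∣ u.1 - 1 ∧
      ¬ ∃ q : ℕ, q.Prime ∧ IsQRC u.1 u.2 1 {q}} : ℝ) ≤ ε * x :=
  pairs_bound ε hε

end Pool.Agent.Results.MP_74dd9d_nt.AlmostAllPairs
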