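import Pool.Agent.Y525.QC.Main

/-!
# Quadratic residue covers for almost all primes `c ≡ 1 (mod b)`, for every `b`

`Del c b n` is the number `Δ_n(c, b)` and `IsQRC c b ℓ C` says that `C` is an `ℓ`-QRC for the family
`Δ_n(c, b)`, see `Pool/Agent/Y525/QC/Defs.lean`.

If the prime `q` divides `c + 1` then `b^2 Δ_n(c, b) ≡ b^4 + 4 (mod q)` for every `n`. Hence `{q}` is a
`2`-QRC if `q ≡ 1 (mod 4 (b^4 + 4))`, and the primes `c` such that `c + 1` has no prime factor in this
residue class are rare (upper bound sieve and Bombieri-Vinogradov theorem of the starting library).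
-/

set_option autoImplicit false

namespace Pool.Agent.Results.MP_74dd9d_nt.AlmostAllPrimes

open Pool.Agent.Y525.QC

/-- For every `b ≥ 1` there is `δ > 0` such that for all but `O(x / (log x)^(1 + δ))` of the primes
`c ≤ x`, `c ≡ 1 (mod b)`, the family `Δ_n(c, b)` has a `2`-QRC consisting of a single prime factor `q` of
`c + 1`. -/
theorem result (b : ℕ) (hb : 1 ≤ b) : ∃ δ K : ℝ, 0 < δ ∧ ∃ X : ℕ, ∀ x : ℕ, X ≤ x →
    (Set.ncard {c : ℕ | c ≤ x ∧ c.Prime ∧ b ∣ c - 1 ∧
      ¬ ∃ q : ℕ, q.Prime ∧ q ∣ c + 1 ∧ IsQRC c b 2 {q}} : ℝ) ≤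
        K * x / (Real.log x) ^ (1 + δ) :=
  main b hb

end Pool.Agent.Results.MP_74dd9d_nt.AlmostAllPrimes
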